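import Mathlib
import Pool.Agent.H15.ANT2

set_option autoImplicit false

namespace Pool.Agent.Results.MP_d11917_an.Band

open Pool.Agent.H15.ANT

theorem result : ∃ (w : Fin 2 → Bool) (c : ℤ × ℤ → Fin 2), w 0 = false ∧ w 1 = true ∧
    Rec w (c, (0, 0), (1, 0)) ≠ ∅ ∧ Rec w (c, (0, 0), (1, 0)) ≠ Set.univ ∧
    ∀ t : ℕ, -3 ≤ ((T w)^[t] (c, (0, 0), (1, 0))).2.1.2 ∧
      ((T w)^[t] (c, (0, 0), (1, 0))).2.1.2 ≤ 4 := by
  obtain ⟨c, h1, h2⟩ := Pool.Agent.H15.ANT.main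
  refine ⟨LR, c, rfl, rfl, h1.ne_empty, fun h => ?_, h2⟩
  have h3 : ((0, 5) : ℤ × ℤ) ∈ Rec LR (c, (0, 0), (1, 0)) := h ▸ Set.mem_univ _
  obtain ⟨t, ht⟩ := Set.Infinite.nonempty h3
  have := (h2 t).2
  rw [show ((T LR)^[t] (c, (0, 0), (1, 0))).2.1 = (0, 5) from ht] at this
  norm_num at this

end Pool.Agent.Results.MP_d11917_an.Band
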